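import Mathlib
import Pool.Agent.H17.IntCx

set_option autoImplicit false

namespace Pool.Agent.Results.MP_d302e1_nt.Drop

inductive Ex where
  | c : Ex
  | add : Ex → Ex → Ex
  | mul : Ex → Ex → Ex

def Ex.val (l : ℕ) : Ex → ℕ
  | .c => l
  | .add a b => a.val l + b.val l
  | .mul a b => a.val l * b.val l

def Ex.size : Ex → ℕ
  | .c => 1
  | .add a b => a.size + b.size
  | .mul a b => a.size + b.size

def Ex.lits : Ex → ℕ
  | .c => 1
  | .add a b => a.lits + b.lits
  | .mul _ _ => 0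

def Ex.Reduced : Ex → Prop
  | .c => True
  | .add a b => a.Reduced ∧ b.Reduced ∧ a.lits + b.lits < 4
  | .mul a b => a.Reduced ∧ b.Reduced

noncomputable def cx (l n : ℕ) : ℕ := sInf {k | ∃ e : Ex, e.val l = n ∧ e.size = k}

open Pool.Agent.H17.IntCx in
theorem result : ∃ n : ℕ, 1 ≤ n ∧
    (∃ R : Ex, R.val 1 = n ∧ R.size = cx 1 n ∧ R.Reduced) ∧
    ∀ R : Ex, R.val 1 = n → R.size = cx 1 n → R.Reduced → cx 2 (R.val 2) < cx 1 n := by
  have key : ∀ e : Ex, 1 ≤ e.val 1 ∧ (e.val 1 ≤ 47 → f (e.val 1) ≤ e.size ∧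
      (e.size = f (e.val 1) → e.Reduced → (e.val 2, e.lits) ∈ A (e.val 1))) := by
    intro e
    induction e with
    | c => exact ⟨le_rfl, fun _ => ⟨by decide, fun _ _ => by decide⟩⟩
    | add a b ha hb =>
      obtain ⟨ha1, ha⟩ := ha
      obtain ⟨hb1, hb⟩ := hb
      simp only [Ex.val, Ex.size, Ex.lits, Ex.Reduced]
      refine ⟨by omega, fun h => ?_⟩
      obtain ⟨ha2, ha3⟩ := ha (by omega)
      obtain ⟨hb2, hb3⟩ := hb (by omega)
      obtain ⟨h1, h2⟩ := hadd _ (List.mem_range.2 (by omega)) _ (List.mem_range.2 (by omega))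
        ha1 hb1 h
      refine ⟨by omega, fun hs hr => ?_⟩
      exact h2 (by omega) _ (ha3 (by omega) hr.1) _ (hb3 (by omega) hr.2.1) hr.2.2
    | mul a b ha hb =>
      obtain ⟨ha1, ha⟩ := ha
      obtain ⟨hb1, hb⟩ := hb
      simp only [Ex.val, Ex.size, Ex.lits, Ex.Reduced]
      have hxa : a.val 1 ≤ a.val 1 * b.val 1 := Nat.le_mul_of_pos_right _ hb1
      have hxb : b.val 1 ≤ a.val 1 * b.val 1 := Nat.le_mul_of_pos_left _ ha1
      refine ⟨by omega, fun h => ?_⟩
      obtain ⟨ha2, ha3⟩ := ha (by omega)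
      obtain ⟨hb2, hb3⟩ := hb (by omega)
      obtain ⟨h1, h2⟩ := hmul _ (List.mem_range.2 (by omega)) _ (List.mem_range.2 (by omega))
        ha1 hb1 h
      refine ⟨by omega, fun hs hr => ?_⟩
      exact h2 (by omega) _ (ha3 (by omega) hr.1) _ (hb3 (by omega) hr.2)
  let two : Ex := .add .c .c
  let three : Ex := .add two .c
  let R0 : Ex := .add (.add (.mul (.mul three three) (.add (.mul two two) .c)) .c) .c
  have h47 : cx 1 47 = 13 := by
    apply le_antisymm
    · exact Nat.sInf_le ⟨R0, by decide, by decide⟩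
    · refine le_csInf ⟨13, R0, by decide, by decide⟩ ?_
      rintro k ⟨e, he, rfl⟩
      have := ((key e).2 (by omega)).1
      rw [he] at this
      exact this
  let e18 : Ex := .add (.mul (.mul .c .c) (.mul .c .c)) .c
  have h652 : cx 2 652 ≤ 12 :=
    Nat.sInf_le ⟨.mul .c (.add (.mul e18 e18) .c), by decide, by decide⟩
  refine ⟨47, by norm_num, ⟨R0, by decide, by rw [h47]; decide, ?_⟩, fun R h1 h2 h3 => ?_⟩
  · simp [R0, two, three, Ex.Reduced, Ex.lits]
  · have h := ((key R).2 (by omega)).2 (by rw [h2, h47, h1]; decide) h3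
    rw [h1] at h
    have hA : A 47 = [(652, 2)] := by decide
    rw [hA, List.mem_singleton, Prod.mk.injEq] at h
    rw [h.1, h47]
    omega

end Pool.Agent.Results.MP_d302e1_nt.Drop
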